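import Pool.Agent.Helper17.SLD.Goals
import Pool.Agent.Helper56.SLC.FRN

/-! Packet FN of project SLD. -/

namespace Pool.Agent.Helper17.SLD.PkFN

open Pool.Agent.Helper17.SL Pool.Agent.Helper42.SLC
open Pool.Agent.Helper51.SigLeo Pool.Agent.Helper51.SixExp NumberField Module TensorProduct

universe u v w x y z

theorem thm (hFR : S_FR.{v, w, y, z}) (hNB1 : S_NB1.{v, w, x, z}) (hNB2 : S_NB2.{u, v, x, z}) :
    S_FN.{u, v, w, x, y, z} := by
  intro F _ K _ _ _ H _ _ N _ _ _ _ _ _ _ _ _ _ _ _ _ Ω _ _ _ p _ k _ _ _ _ ιinf ιp S χ Λ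
    θ θ' n τ h2 h4 hS hθ hθ' hfail hτ hinj
  classical
  have hchar : CharZero k := charZero_of_padic p (k := k)
  have hfdKN : FiniteDimensional K N := FiniteDimensional.right F K N
  have hgalKN : IsGalois K N := IsGalois.tower_top_of_isGalois F K N
  have hfdKH : FiniteDimensional K H := FiniteDimensional.left K H N
  let _ : Fintype (N ≃ₐ[K] N) := Fintype.ofFinite _
  let _ : Fintype (H ≃ₐ[K] H) := Fintype.ofFinite _
  -- the character of `Gal(N/K)`
  let R : (N ≃ₐ[K] N) →* (N ≃ₐ[F] N) :=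
    { toFun := fun g => g.restrictScalars F
      map_one' := rfl
      map_mul' := fun _ _ => rfl }
  let θK : (N ≃ₐ[K] N) →* kˣ := θ.comp R
  have hθK : ∀ g : N ≃ₐ[K] N, θK g = θ (g.restrictScalars F) := fun _ => rfl
  have hres : ∀ g : N ≃ₐ[K] N, ∀ x : H, (g.restrictScalars F) (algebraMap H N x) =
      algebraMap H N (g.restrictNormal H x) := by
    intro g x
    exact (AlgEquiv.restrictNormal_commutes g H x).symm
  have hθK' : ∀ g : N ≃ₐ[K] N, θK g = θ' (g.restrictScalars F) := by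
    intro g
    rw [hθK, hθ _ (g.restrictNormal H) (hres g), hθ' _ (g.restrictNormal H) (hres g)]
  have hcompat : Compat χ θK := by
    intro g h hgh
    exact hθ (g.restrictScalars F) h hgh
  -- the relation on the level of `H`
  have hcomp : ∀ τ : N →+* Ω, (τ.comp (algebraMap H N)).comp (algebraMap K H) =
      τ.comp (algebraMap K N) := by
    intro τ
    rw [RingHom.comp_assoc, ← IsScalarTower.algebraMap_eq K H N]
  obtain ⟨c, hc0, hc⟩ := hFR K H Ω p k ιinf ιp S χ Λ n (fun i => (τ i).comp (algebraMap H N))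
    h4 hS hfail (fun i => by rw [hcomp]; exact hτ i) (fun i j hij => by
      apply hinj
      simp only [hcomp] at hij
      exact hij)
  -- the relation for `θK`
  have hB : ∀ v, ∑ i, c i * tw θK (logUnits Λ (ιp.comp (τ i))) v = 0 := by
    intro v
    obtain ⟨v', hv'⟩ := hNB1 K H N k χ θK hcompat v
    rw [← hc v']
    refine Finset.sum_congr rfl fun i _ => ?_
    rw [hv', Pool.Agent.Helper56.SLC.logUnits_comp_incl]
    rfl
  obtain ⟨s, hs⟩ := Pool.Agent.Helper56.SLC.exists_nontrivial (k₀ := F) (K := K) (N := N) h2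
  have hN := hNB2 F K N k θ θK s h2 hθK hs
  have hN' := hNB2 F K N k θ' θK s h2 hθK' hs
  have hgen : ∀ (a : k) (v : Additive (𝓞 N)ˣ),
      ∑ i, c i * (tw θK (logUnits Λ (ιp.comp (τ i))) v +
        a * tw θK (logUnits Λ (ιp.comp (τ i))) (unitsHom s v)) = 0 := by
    intro a v
    have h1 := hB v
    have h2 := hB (unitsHom s v)
    calc ∑ i, c i * (tw θK (logUnits Λ (ιp.comp (τ i))) v +
        a * tw θK (logUnits Λ (ιp.comp (τ i))) (unitsHom s v))
        = ∑ i, c i * tw θK (logUnits Λ (ιp.comp (τ i))) v +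
          a * ∑ i, c i * tw θK (logUnits Λ (ιp.comp (τ i))) (unitsHom s v) := by
          rw [Finset.mul_sum, ← Finset.sum_add_distrib]
          exact Finset.sum_congr rfl fun i _ => by ring
      _ = 0 := by rw [h1, h2]; ring
  refine ⟨c, hc0, fun v => ?_, fun v => ?_⟩
  · rw [← hgen ((θ s⁻¹ : kˣ) : k) v]
    refine Finset.sum_congr rfl fun i _ => ?_
    unfold vec
    rw [hN]
  · rw [← hgen ((θ' s⁻¹ : kˣ) : k) v]
    refine Finset.sum_congr rfl fun i _ => ?_
    unfold vec
    rw [hN']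

end Pool.Agent.Helper17.SLD.PkFN
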