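import Pool.Agent.Helper17.SLD.Goals

/-! Packet RX of project SLD. -/

namespace Pool.Agent.Helper17.SLD.PkRX

open Pool.Agent.Helper17.SL Pool.Agent.Helper42.SLC
open Pool.Agent.Helper51.SigLeo Pool.Agent.Helper51.SixExp NumberField Module TensorProduct

universe u v w x y z

/-- Embeddings of a totally real field are real. -/
theorem conj_eq {F : Type*} [Field F] [NumberField F] [IsTotallyReal F] (φ : F →+* ℂ) :
    ComplexEmbedding.conjugate φ = φ :=
  ComplexEmbedding.isReal_iff.mp (IsTotallyReal.complexEmbedding_isReal φ)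

theorem thm (hFN : S_FN.{u, v, w, x, y, z}) (hGA7 : S_GA7.{u, x, y}) :
    S_RX.{u, v, w, x, y, z} := by
  intro F _ _ _ K _ _ _ H _ _ N _ _ _ _ _ _ _ _ _ _ _ _ Ω _ _ _ p _ k _ _ _ _ ιinf ιp S χ Λ
    θ θ' n τ e h2 hn hS hθ hθ' htw hfail hinj he
  classical
  have hfd : FiniteDimensional F N := inferInstance
  have h4 : finrank ℚ K = 2 * n := by
    rw [← finrank_mul_finrank ℚ F K, hn, h2, mul_comm]
  -- the automorphisms
  have hex : ∀ i, ∃ g : N ≃ₐ[F] N, ιinf.comp ((τ i).comp (g : N →+* N)) =
      ComplexEmbedding.conjugate (ιinf.comp (τ i)) := by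
    intro i
    obtain ⟨τ', hτ'⟩ := exists_lift_embedding (K := N) ιinf
      (ComplexEmbedding.conjugate (ιinf.comp (τ i)))
    have hF : (τ i).comp (algebraMap F N) = τ'.comp (algebraMap F N) := by
      ext a
      apply ιinf.injective
      have h5 := conj_eq (F := F) (ιinf.comp ((τ i).comp (algebraMap F N)))
      have h6 := RingHom.congr_fun h5 a
      have h7 := RingHom.congr_fun hτ' (algebraMap F N a)
      change ιinf (τ' (algebraMap F N a)) = _ at h7
      change ιinf (τ i (algebraMap F N a)) = ιinf (τ' (algebraMap F N a))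
      rw [h7]
      exact h6.symm
    obtain ⟨g, hg⟩ := hGA7 F N Ω (τ i) τ' hF
    refine ⟨g, ?_⟩
    rw [← hg]
    exact hτ'
  choose g₀ hg₀ using hex
  let g : Fin n → N ≃ₐ[F] N :=
    fun i => if ιinf.comp ((τ i).comp (algebraMap K N)) ∈ S then 1 else g₀ i
  have hgpos : ∀ i, ιinf.comp ((τ i).comp (algebraMap K N)) ∈ S → g i = 1 := fun i h => if_pos h
  have hgneg : ∀ i, ιinf.comp ((τ i).comp (algebraMap K N)) ∉ S → g i = g₀ i := fun i h => if_neg h
  have hresK : ∀ i, ιinf.comp (((τ i).comp (g₀ i : N →+* N)).comp (algebraMap K N)) =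
      ComplexEmbedding.conjugate (ιinf.comp ((τ i).comp (algebraMap K N))) := by
    intro i
    have h5 := hg₀ i
    ext a
    exact RingHom.congr_fun h5 (algebraMap K N a)
  have hmem : ∀ i, ιinf.comp (((τ i).comp (g i : N →+* N)).comp (algebraMap K N)) ∈ S := by
    intro i
    by_cases h : ιinf.comp ((τ i).comp (algebraMap K N)) ∈ S
    · rw [hgpos i h]
      exact h
    · rw [hgneg i h, hresK]
      by_contra h3
      exact h ((hS _).mpr h3)
  have hinjK : Function.Injective
      (fun i => ((τ i).comp (g i : N →+* N)).comp (algebraMap K N)) := by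
    intro i j hij
    apply hinj
    ext a
    have h5 := RingHom.congr_fun hij (algebraMap F K a)
    have h6 : ∀ i, (((τ i).comp (g i : N →+* N)).comp (algebraMap K N)) (algebraMap F K a) =
        (τ i) (algebraMap F N a) := by
      intro i
      change (τ i) (g i (algebraMap K N (algebraMap F K a))) = _
      rw [← IsScalarTower.algebraMap_apply F K N, (g i).commutes]
    simp only [h6] at h5
    exact h5
  obtain ⟨c, hc0, hc1, hc2⟩ := hFN F K H N Ω p k ιinf ιp S χ Λ θ θ' n
    (fun i => (τ i).comp (g i : N →+* N)) h2 h4 hS hθ hθ' hfail hmem hinjK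
  have hvec : ∀ (ϑ : (N ≃ₐ[F] N) →* kˣ) v i,
      vec Λ ϑ (fun i => ιp.comp ((τ i).comp (g i : N →+* N))) v i =
        ((ϑ (g i) : kˣ) : k) * vec Λ ϑ (fun i => ιp.comp (τ i)) v i := by
    intro ϑ v i
    exact tw_logUnits_comp Λ (ιp.comp (τ i)) ϑ v (g i)
  have hsgn : ∀ i, ((θ' (g i) : kˣ) : k) = e i * ((θ (g i) : kˣ) : k) := by
    intro i
    by_cases h : ιinf.comp ((τ i).comp (algebraMap K N)) ∈ S
    · rw [hgpos i h, (he i).1 h, map_one, map_one, one_mul]
    · rw [(he i).2 h]
      have h5 : θ' (g i) = -θ (g i) := by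
        apply htw.2
        by_contra h6
        push Not at h6
        rw [hgneg i h] at h6
        have h7 := hresK i
        apply conjugate_ne (ιinf.comp ((τ i).comp (algebraMap K N)))
        rw [← h7]
        ext a
        change ιinf (τ i (g₀ i (algebraMap K N a))) = ιinf (τ i (algebraMap K N a))
        rw [h6]
      rw [h5, Units.val_neg]
      ring
  refine ⟨fun i => c i * ((θ (g i) : kˣ) : k), ?_, ?_, ?_⟩
  · intro h
    apply hc0
    funext i
    have h5 := congrFun h i
    have h6 : ((θ (g i) : kˣ) : k) ≠ 0 := Units.ne_zero _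
    rcases mul_eq_zero.mp h5 with h7 | h7
    · exact h7
    · exact absurd h7 h6
  · intro v
    rw [← hc1 v]
    refine Finset.sum_congr rfl fun i _ => ?_
    rw [hvec]
    ring
  · intro v
    rw [← hc2 v]
    refine Finset.sum_congr rfl fun i _ => ?_
    rw [hvec, hsgn]
    ring

end Pool.Agent.Helper17.SLD.PkRX
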